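import Mathlib

/-! # Project AZ: averaging over balls (AVG), and the linear phase (LIN); pure Mathlib -/

set_option autoImplicit false
open Metric MeasureTheory Set Filter Topology

namespace Pool.Agent.N951.AZ

lemma vol_ball (x : ℂ) {r : ℝ} (hr : 0 ≤ r) :
    volume (closedBall x r) = ENNReal.ofReal (Real.pi * r ^ 2) := by
  rw [Complex.volume_closedBall, ENNReal.ofReal_mul Real.pi_pos.le, ENNReal.ofReal_pow hr, mul_comm]
  congr 1
  rw [← NNReal.coe_real_pi, ENNReal.ofReal_coe_nnreal]

/-- averaging over balls of slowly varying radius -/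
theorem avg (S F : Set ℂ) (r : ℂ → ℝ) (a K : ℝ) (hS : MeasurableSet S) (hr : Measurable r)
    (_ha : 0 ≤ a) (_hK : 1 ≤ K) (hpos : ∀ x ∈ S, 0 < r x)
    (hF : ∀ x ∈ S, ENNReal.ofReal a * volume (closedBall x (r x)) ≤
      volume (F ∩ closedBall x (r x)))
    (hcmp : ∀ x ∈ S, ∀ x' ∈ S, ∀ y, y ∈ closedBall x (r x) → y ∈ closedBall x' (r x') →
      r x ≤ K * r x') :
    ENNReal.ofReal a * volume S ≤ ENNReal.ofReal (K ^ 2) * volume F := by
  set F' := toMeasurable volume F with hF'
  have hF'm : MeasurableSet F' := measurableSet_toMeasurable _ _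
  have hsub : F ⊆ F' := subset_toMeasurable _ _
  have hvF : volume F' = volume F := measure_toMeasurable _
  set A : Set (ℂ × ℂ) := {p | dist p.2 p.1 ≤ r p.1} with hA
  have hAm : MeasurableSet A := by
    have h1 : Measurable (fun p : ℂ × ℂ => dist p.2 p.1) := by fun_prop
    exact measurableSet_le h1 (hr.comp measurable_fst)
  set f : ℂ → ℂ → ENNReal := fun x y =>
    A.indicator (fun p : ℂ × ℂ => ENNReal.ofReal (1 / (Real.pi * r p.1 ^ 2))) (x, y) with hf
  have hfm : Measurable (Function.uncurry f) := by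
    have h1 : Measurable (fun p : ℂ × ℂ => ENNReal.ofReal (1 / (Real.pi * r p.1 ^ 2))) := by
      have h2 : Measurable (fun p : ℂ × ℂ => r p.1) := hr.comp measurable_fst
      fun_prop
    exact h1.indicator hAm
  -- lower bound
  have h1 : ENNReal.ofReal a * volume S ≤ ∫⁻ x in S, ∫⁻ y in F', f x y := by
    rw [← setLIntegral_const]
    refine setLIntegral_mono' hS fun x hx => ?_
    have hrx := hpos x hx
    have e1 : ∫⁻ y in F', f x y =
        volume (F' ∩ closedBall x (r x)) * ENNReal.ofReal (1 / (Real.pi * r x ^ 2)) := by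
      have e2 : ∀ y, f x y = (closedBall x (r x)).indicator
          (fun _ => ENNReal.ofReal (1 / (Real.pi * r x ^ 2))) y := by
        intro y
        by_cases hy : y ∈ closedBall x (r x)
        · rw [indicator_of_mem hy]
          have : (x, y) ∈ A := hy
          simp only [hf]
          rw [indicator_of_mem this]
        · rw [indicator_of_notMem hy]
          have : (x, y) ∉ A := hy
          simp only [hf]
          rw [indicator_of_notMem this]
      simp_rw [e2]
      rw [lintegral_indicator measurableSet_closedBall, setLIntegral_const,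
        Measure.restrict_apply measurableSet_closedBall, inter_comm, mul_comm]
    rw [e1]
    have e3 := hF x hx
    have e4 : volume (F ∩ closedBall x (r x)) ≤ volume (F' ∩ closedBall x (r x)) :=
      measure_mono (inter_subset_inter_left _ hsub)
    rw [vol_ball x hrx.le] at e3
    have hp : 0 < Real.pi * r x ^ 2 := by positivity
    calc ENNReal.ofReal a = ENNReal.ofReal a * ENNReal.ofReal (Real.pi * r x ^ 2) *
          ENNReal.ofReal (1 / (Real.pi * r x ^ 2)) := by
          rw [mul_assoc, ← ENNReal.ofReal_mul hp.le, mul_one_div_cancel hp.ne', ENNReal.ofReal_one,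
            mul_one]
      _ ≤ _ := by
          gcongr
          exact e3.trans e4
  -- swap
  have h2 : ∫⁻ x in S, ∫⁻ y in F', f x y = ∫⁻ y in F', ∫⁻ x in S, f x y :=
    lintegral_lintegral_swap hfm.aemeasurable
  -- upper bound
  have h3 : ∫⁻ y in F', ∫⁻ x in S, f x y ≤ ∫⁻ _ in F', ENNReal.ofReal (K ^ 2) := by
    refine lintegral_mono fun y => ?_
    set Sy : Set ℂ := {x | x ∈ S ∧ y ∈ closedBall x (r x)} with hSy
    by_cases hemp : Sy = ∅
    · have e1 : ∫⁻ x in S, f x y ≤ ∫⁻ _ in S, 0 := by
        refine setLIntegral_mono' hS fun x hx => ?_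
        have : (x, y) ∉ A := by
          intro h0
          have : x ∈ Sy := ⟨hx, h0⟩
          rw [hemp] at this
          exact this
        simp only [hf]
        rw [indicator_of_notMem this]
      rw [lintegral_zero] at e1
      exact e1.trans zero_le
    · obtain ⟨x1, hx1⟩ := nonempty_iff_ne_empty.2 hemp
      have hbdd : BddAbove (r '' Sy) := by
        refine ⟨K * r x1, ?_⟩
        rintro _ ⟨x, hx, rfl⟩
        exact hcmp x hx.1 x1 hx1.1 y hx.2 hx1.2
      set r0 := sSup (r '' Sy) with hr0
      have g1 : ∀ x ∈ Sy, r x ≤ r0 := fun x hx => le_csSup hbdd ⟨x, hx, rfl⟩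
      have g2 : ∀ x ∈ Sy, r0 ≤ K * r x := by
        intro x hx
        refine csSup_le ⟨_, ⟨x1, hx1, rfl⟩⟩ ?_
        rintro _ ⟨x', hx', rfl⟩
        exact hcmp x' hx'.1 x hx.1 y hx'.2 hx.2
      have g3 : 0 < r0 := (hpos x1 hx1.1).trans_le (g1 x1 hx1)
      have e1 : ∫⁻ x in S, f x y ≤ ∫⁻ x in S, (closedBall y r0).indicator
          (fun _ => ENNReal.ofReal (K ^ 2 * (1 / (Real.pi * r0 ^ 2)))) x := by
        refine setLIntegral_mono' hS fun x hx => ?_
        by_cases hxy : (x, y) ∈ A
        · have hxS : x ∈ Sy := ⟨hx, hxy⟩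
          have hxb : x ∈ closedBall y r0 := by
            have : dist y x ≤ r x := hxy
            rw [mem_closedBall, dist_comm]
            exact this.trans (g1 x hxS)
          simp only [hf]
          rw [indicator_of_mem hxy, indicator_of_mem hxb]
          apply ENNReal.ofReal_le_ofReal
          have hrx := hpos x hx
          have g4 := g2 x hxS
          rw [mul_one_div, div_le_div_iff₀ (by positivity) (by positivity), one_mul]
          have g5 : r0 ^ 2 ≤ (K * r x) ^ 2 := pow_le_pow_left₀ g3.le g4 2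
          have g6 := mul_le_mul_of_nonneg_left g5 Real.pi_pos.le
          calc Real.pi * r0 ^ 2 ≤ Real.pi * (K * r x) ^ 2 := g6
            _ = _ := by ring
        · simp only [hf]
          rw [indicator_of_notMem hxy]
          exact zero_le
      refine e1.trans ((setLIntegral_le_lintegral _ _).trans ?_)
      rw [lintegral_indicator measurableSet_closedBall, setLIntegral_const, vol_ball y g3.le,
        ← ENNReal.ofReal_mul (by positivity)]
      apply le_of_eq
      congr 1
      have : Real.pi * r0 ^ 2 ≠ 0 := by positivity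
      field_simp
  rw [setLIntegral_const, hvF] at h3
  exact h1.trans (h2.le.trans h3)

/-- the measure of a superlevel set of the cosine over a period -/
lemma cos_meas (s x : ℝ) (hs0 : 0 ≤ s) (hs1 : s ≤ 1) :
    ENNReal.ofReal (Real.pi * (1 - s)) ≤
      volume (Icc 0 (2 * Real.pi) ∩ {t : ℝ | s ≤ Real.cos (x + t)}) := by
  set Q : Set ℝ := {y | s ≤ Real.cos y} with hQ
  have hQm : MeasurableSet Q := measurableSet_le measurable_const Real.measurable_cos
  have hpi := Real.pi_pos
  have h1 := (isAddFundamentalDomain_Ioc (T := 2 * Real.pi) (by positivity) x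
    (volume : Measure ℝ)).measure_set_eq
    (isAddFundamentalDomain_Ioc (T := 2 * Real.pi) (by positivity) (-Real.pi)
    (volume : Measure ℝ)) (A := Q) hQm (by
      rintro ⟨g, hg⟩
      obtain ⟨k, rfl⟩ := AddSubgroup.mem_zmultiples_iff.1 hg
      ext y
      simp only [hQ, mem_preimage, mem_ofPred_eq, AddSubgroup.vadd_def, vadd_eq_add, zsmul_eq_mul]
      rw [add_comm, Real.cos_add_int_mul_two_pi])
  have h2 : volume (Q ∩ Ioc x (x + 2 * Real.pi)) ≤
      volume (Icc 0 (2 * Real.pi) ∩ {t : ℝ | s ≤ Real.cos (x + t)}) := by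
    rw [← measure_preimage_add volume x (Q ∩ Ioc x (x + 2 * Real.pi))]
    apply measure_mono
    rintro t ⟨ht1, ht2⟩
    have ht2' : x < x + t ∧ x + t ≤ x + 2 * Real.pi := ht2
    refine ⟨⟨by linarith [ht2'.1], by linarith [ht2'.2]⟩, ht1⟩
  refine le_trans ?_ h2
  rw [h1]
  set b := Real.pi / 2 * (1 - s) with hb
  have hb0 : 0 ≤ b := by
    have : 0 ≤ 1 - s := by linarith
    positivity
  have hb1 : b ≤ Real.pi / 2 := by
    rw [hb]
    nlinarith
  have h3 : volume (Ioc (-b) b) = ENNReal.ofReal (Real.pi * (1 - s)) := by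
    rw [Real.volume_Ioc]
    congr 1
    rw [hb]
    ring
  rw [← h3]
  apply measure_mono
  intro y hy
  refine ⟨?_, ?_⟩
  · show s ≤ Real.cos y
    rw [← Real.cos_abs]
    have hy1 : |y| ≤ b := abs_le.2 ⟨hy.1.le, hy.2⟩
    have h4 := Real.one_sub_mul_le_cos (abs_nonneg y) (hy1.trans hb1)
    refine le_trans ?_ h4
    have h5 : 2 / Real.pi * |y| ≤ 2 / Real.pi * b := by gcongr
    have h6 : 2 / Real.pi * b = 1 - s := by
      rw [hb]
      field_simp
    linarith
  · exact ⟨by linarith [hy.1], by linarith [hy.2]⟩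

/-- equidistribution of the phase on a disc -/
theorem lin (c₀ w : ℂ) (r φ s : ℝ) (hr : 0 < r) (hρ : 20 ≤ ‖w‖ * r) (hs0 : 0 ≤ s) (hs1 : s ≤ 1) :
    ENNReal.ofReal ((1 - s) / 2 - 15 / (‖w‖ * r)) * volume (closedBall c₀ r) ≤
    volume {c | c ∈ closedBall c₀ r ∧ s ≤ Real.cos (φ + (w * (c - c₀)).re)} := by
  have hpi := Real.pi_pos
  have hw0 : 0 < ‖w‖ := by
    by_contra h
    push Not at h
    have : ‖w‖ * r ≤ 0 := mul_nonpos_of_nonpos_of_nonneg h hr.le
    linarith
  have hw : w ≠ 0 := norm_pos_iff.1 hw0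
  set ρ := ‖w‖ * r with hρd
  have hρ0 : 0 < ρ := by linarith
  set A : Set ℂ := {c | s ≤ Real.cos (φ + (w * (c - c₀)).re)} with hA
  have hcont : Continuous (fun c : ℂ => Real.cos (φ + (w * (c - c₀)).re)) := by fun_prop
  have hAm : MeasurableSet A := measurableSet_le measurable_const hcont.measurable
  have hset : {c | c ∈ closedBall c₀ r ∧ s ≤ Real.cos (φ + (w * (c - c₀)).re)} =
      closedBall c₀ r ∩ A := rfl
  rw [hset]
  -- the shifted sets
  have hV : ∀ t : ℝ, 0 ≤ t → t ≤ 2 * Real.pi →
      volume (closedBall c₀ r ∩ {c | s ≤ Real.cos (φ + t + (w * (c - c₀)).re)}) ≤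
      volume (closedBall c₀ r ∩ A) + ENNReal.ofReal (15 / ρ) * volume (closedBall c₀ r) := by
    intro t ht0 ht1
    set e : ℂ := w⁻¹ with he
    have e1 : closedBall c₀ r ∩ {c | s ≤ Real.cos (φ + t + (w * (c - c₀)).re)} =
        (fun c => t * e + c) ⁻¹' (closedBall (c₀ + t * e) r ∩ A) := by
      ext c
      simp only [mem_inter_iff, mem_closedBall, mem_ofPred_eq, mem_preimage, hA]
      have e2 : dist (t * e + c) (c₀ + t * e) = dist c c₀ := by
        rw [add_comm c₀, dist_add_left]
      have e3 : (w * (t * e + c - c₀)).re = t + (w * (c - c₀)).re := by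
        have : w * (t * e + c - c₀) = (t : ℂ) + w * (c - c₀) := by
          rw [he]
          field_simp
          ring
        rw [this, Complex.add_re, Complex.ofReal_re]
      rw [e2, e3, add_assoc]
    rw [e1, measure_preimage_add]
    have hsub : closedBall (c₀ + t * e) r ∩ A ⊆
        (closedBall c₀ r ∩ A) ∪ (closedBall c₀ (r + t / ‖w‖) \ closedBall c₀ r) := by
      rintro c ⟨hc1, hc2⟩
      by_cases hc : c ∈ closedBall c₀ r
      · exact Or.inl ⟨hc, hc2⟩
      · refine Or.inr ⟨?_, hc⟩
        rw [mem_closedBall] at hc1 ⊢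
        have h1 : dist (c₀ + t * e) c₀ = t / ‖w‖ := by
          rw [dist_eq_norm, add_sub_cancel_left, norm_mul, he, norm_inv, Complex.norm_real,
            Real.norm_of_nonneg ht0, div_eq_mul_inv]
        have h2 := dist_triangle c (c₀ + t * e) c₀
        rw [h1] at h2
        linarith
    have ht2 : 0 ≤ t / ‖w‖ := by positivity
    refine (measure_mono hsub).trans ((measure_union_le _ _).trans (add_le_add le_rfl ?_))
    rw [measure_sdiff (closedBall_subset_closedBall (by linarith))
      measurableSet_closedBall.nullMeasurableSet (by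
        rw [vol_ball _ hr.le]; exact ENNReal.ofReal_ne_top),
      vol_ball _ (by positivity), vol_ball _ hr.le, ← ENNReal.ofReal_sub _ (by positivity),
      ← ENNReal.ofReal_mul (by positivity)]
    apply ENNReal.ofReal_le_ofReal
    have h3 : r + t / ‖w‖ = r * (1 + t / ρ) := by
      rw [hρd]
      field_simp
    rw [h3]
    have h4 : (1 + t / ρ) ^ 2 - 1 ≤ 15 / ρ := by
      have h5 : t / ρ ≤ 2 * Real.pi / ρ := by gcongr
      have h6 : 0 ≤ t / ρ := by positivity
      have h7 : (1 + t / ρ) ^ 2 ≤ (1 + 2 * Real.pi / ρ) ^ 2 := by gcongr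
      have h8 : (1 + 2 * Real.pi / ρ) ^ 2 - 1 = (4 * Real.pi + 4 * Real.pi ^ 2 / ρ) / ρ := by
        field_simp
        ring
      have h9 : 4 * Real.pi + 4 * Real.pi ^ 2 / ρ ≤ 15 := by
        have h10 : 4 * Real.pi ^ 2 / ρ ≤ 4 * Real.pi ^ 2 / 20 := by gcongr
        have := Real.pi_lt_d2
        nlinarith
      have h11 : (4 * Real.pi + 4 * Real.pi ^ 2 / ρ) / ρ ≤ 15 / ρ := by gcongr
      linarith
    calc Real.pi * (r * (1 + t / ρ)) ^ 2 - Real.pi * r ^ 2 =
          Real.pi * r ^ 2 * ((1 + t / ρ) ^ 2 - 1) := by ring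
      _ ≤ Real.pi * r ^ 2 * (15 / ρ) := by gcongr
      _ = 15 / ρ * (Real.pi * r ^ 2) := by ring
  -- Fubini
  set P : Set (ℝ × ℂ) := {p | s ≤ Real.cos (φ + p.1 + (w * (p.2 - c₀)).re)} with hP
  have hPm : MeasurableSet P := by
    have : Continuous (fun p : ℝ × ℂ => Real.cos (φ + p.1 + (w * (p.2 - c₀)).re)) := by fun_prop
    exact measurableSet_le measurable_const this.measurable
  set H : ℝ → ℂ → ENNReal := fun t c => P.indicator (fun _ => 1) (t, c) with hH
  have hHm : Measurable (Function.uncurry H) := measurable_const.indicator hPm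
  have hswap : ∫⁻ t in Icc 0 (2 * Real.pi), ∫⁻ c in closedBall c₀ r, H t c =
      ∫⁻ c in closedBall c₀ r, ∫⁻ t in Icc 0 (2 * Real.pi), H t c :=
    lintegral_lintegral_swap hHm.aemeasurable
  have hup : ∫⁻ t in Icc 0 (2 * Real.pi), ∫⁻ c in closedBall c₀ r, H t c ≤
      (volume (closedBall c₀ r ∩ A) + ENNReal.ofReal (15 / ρ) * volume (closedBall c₀ r)) *
        ENNReal.ofReal (2 * Real.pi) := by
    have h1 : (volume (closedBall c₀ r ∩ A) + ENNReal.ofReal (15 / ρ) * volume (closedBall c₀ r)) *
        ENNReal.ofReal (2 * Real.pi) = ∫⁻ _ in Icc 0 (2 * Real.pi),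
        (volume (closedBall c₀ r ∩ A) + ENNReal.ofReal (15 / ρ) * volume (closedBall c₀ r)) := by
      rw [setLIntegral_const, Real.volume_Icc, sub_zero]
    rw [h1]
    refine setLIntegral_mono' measurableSet_Icc fun t ht => ?_
    refine le_trans (le_of_eq ?_) (hV t ht.1 ht.2)
    have h2 : ∀ c, H t c = ({c | s ≤ Real.cos (φ + t + (w * (c - c₀)).re)} : Set ℂ).indicator
        (fun _ => 1) c := fun c => rfl
    have h3 : MeasurableSet {c : ℂ | s ≤ Real.cos (φ + t + (w * (c - c₀)).re)} := by
      have : Continuous (fun c : ℂ => Real.cos (φ + t + (w * (c - c₀)).re)) := by fun_prop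
      exact measurableSet_le measurable_const this.measurable
    simp_rw [h2]
    rw [lintegral_indicator h3, setLIntegral_const, one_mul, Measure.restrict_apply h3, inter_comm]
  have hlow : volume (closedBall c₀ r) * ENNReal.ofReal (Real.pi * (1 - s)) ≤
      ∫⁻ c in closedBall c₀ r, ∫⁻ t in Icc 0 (2 * Real.pi), H t c := by
    rw [mul_comm, ← setLIntegral_const]
    refine setLIntegral_mono' measurableSet_closedBall fun c _ => ?_
    have h1 := cos_meas s (φ + (w * (c - c₀)).re) hs0 hs1
    refine h1.trans (le_of_eq ?_)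
    have h2 : ∀ t, H t c = ({t | s ≤ Real.cos (φ + (w * (c - c₀)).re + t)} : Set ℝ).indicator
        (fun _ => 1) t := by
      intro t
      have h4 : ((t, c) ∈ P) ↔ t ∈ ({t | s ≤ Real.cos (φ + (w * (c - c₀)).re + t)} : Set ℝ) := by
        simp only [hP, mem_ofPred_eq]
        rw [add_right_comm]
      by_cases h5 : (t, c) ∈ P
      · simp only [hH]
        rw [indicator_of_mem h5, indicator_of_mem (h4.1 h5)]
      · simp only [hH]
        rw [indicator_of_notMem h5, indicator_of_notMem (fun h6 => h5 (h4.2 h6))]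
    have h3 : MeasurableSet {t : ℝ | s ≤ Real.cos (φ + (w * (c - c₀)).re + t)} := by
      have : Continuous (fun t : ℝ => Real.cos (φ + (w * (c - c₀)).re + t)) := by fun_prop
      exact measurableSet_le measurable_const this.measurable
    simp_rw [h2]
    rw [lintegral_indicator h3, setLIntegral_const, one_mul, Measure.restrict_apply h3, inter_comm]
  have hfin := (hlow.trans hswap.ge).trans hup
  -- conclusion
  have h2pi : ENNReal.ofReal (2 * Real.pi) ≠ 0 := by
    rw [Ne, ENNReal.ofReal_eq_zero, not_le]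
    positivity
  have e1 : volume (closedBall c₀ r) * ENNReal.ofReal (Real.pi * (1 - s)) =
      (ENNReal.ofReal ((1 - s) / 2) * volume (closedBall c₀ r)) * ENNReal.ofReal (2 * Real.pi) := by
    have : Real.pi * (1 - s) = (1 - s) / 2 * (2 * Real.pi) := by ring
    rw [this, ENNReal.ofReal_mul (by linarith)]
    ring
  rw [e1, ENNReal.mul_le_mul_iff_left h2pi ENNReal.ofReal_ne_top] at hfin
  rw [ENNReal.ofReal_sub _ (by positivity), ENNReal.sub_mul (fun _ _ => by
    rw [vol_ball _ hr.le]; exact ENNReal.ofReal_ne_top)]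
  exact tsub_le_iff_right.2 hfin

end Pool.Agent.N951.AZ
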