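import Pool.Agent.N228.AZ.Stm
import Pool.Agent.N951.AZ.Pure

set_option autoImplicit false

namespace Pool.Agent.N951.AZ

theorem main_AVG : Pool.Agent.N228.AZ.P_AVG := avg

theorem main_LIN : Pool.Agent.N228.AZ.P_LIN := lin

end Pool.Agent.N951.AZ
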